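import Mathlib

set_option autoImplicit false

namespace Pool.Agent.D767

open Set Topology

universe u

/-- well-filtered -/
def WF (Y : Type u) [TopologicalSpace Y] : Prop :=
  T0Space Y ∧
              ∀ 𝒦 : Set (Set Y), 𝒦.Nonempty →
                (∀ K ∈ 𝒦, IsCompact K ∧
                  ∀ y : Y, (∀ V : Set Y, IsOpen V → K ⊆ V → y ∈ V) → y ∈ K) →
                (∀ K₁ ∈ 𝒦, ∀ K₂ ∈ 𝒦, ∃ K₃ ∈ 𝒦, K₃ ⊆ K₁ ∩ K₂) →
                ∀ U : Set Y, IsOpen U → ⋂₀ 𝒦 ⊆ U → ∃ K ∈ 𝒦, K ⊆ U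

theorem clo_iff {Y : Type u} [TopologicalSpace Y] (S : Set Y) (y : Y) :
    closure S = closure ({y} : Set Y) ↔ ∀ U : Set Y, IsOpen U → ((∃ s ∈ S, s ∈ U) ↔ y ∈ U) := by
  constructor
  · intro h U hU
    constructor
    · rintro ⟨s, hs, hsU⟩
      have h1 : s ∈ closure ({y} : Set Y) := h ▸ subset_closure hs
      obtain ⟨z, hz, hz2⟩ := mem_closure_iff.1 h1 U hU hsU
      rwa [mem_singleton_iff.1 hz2] at hz
    · intro hy
      have h1 : y ∈ closure S := h ▸ subset_closure (mem_singleton y)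
      obtain ⟨z, hz, hz2⟩ := mem_closure_iff.1 h1 U hU hy
      exact ⟨z, hz2, hz⟩
  · intro h
    apply Subset.antisymm
    · apply closure_minimal _ isClosed_closure
      intro s hs
      rw [mem_closure_iff]
      intro U hU hsU
      exact ⟨y, (h U hU).1 ⟨s, hs, hsU⟩, rfl⟩
    · apply closure_minimal _ isClosed_closure
      rintro _ rfl
      rw [mem_closure_iff]
      intro U hU hyU
      obtain ⟨s, hs, hsU⟩ := (h U hU).2 hyU
      exact ⟨s, hsU, hs⟩

theorem directed_sup {Y : Type u} [TopologicalSpace Y] (hY : WF Y) {κ : Type u} [Nonempty κ]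
    (y : κ → Y) (hdir : ∀ a b : κ, ∃ c : κ, (∀ U : Set Y, IsOpen U → y a ∈ U → y c ∈ U) ∧
      (∀ U : Set Y, IsOpen U → y b ∈ U → y c ∈ U)) :
    ∃ z : Y, ∀ U : Set Y, IsOpen U → ((∃ a, y a ∈ U) ↔ z ∈ U) := by
  let K : κ → Set Y := fun a => {z | ∀ U : Set Y, IsOpen U → y a ∈ U → z ∈ U}
  have h1 := hY.2 (range K) (range_nonempty K) (by
      rintro _ ⟨a, rfl⟩
      refine ⟨?_, ?_⟩
      · rw [isCompact_iff_finite_subcover]
        intro ι V hV hcov
        obtain ⟨i, hi⟩ := mem_iUnion.1 (hcov (show y a ∈ K a from fun U _ h => h))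
        refine ⟨{i}, ?_⟩
        intro z hz
        simp only [Finset.mem_singleton, iUnion_iUnion_eq_left]
        exact hz _ (hV i) hi
      · intro x hx U hU ha
        exact hx U hU (fun z hz => hz U hU ha)) (by
      rintro _ ⟨a, rfl⟩ _ ⟨b, rfl⟩
      obtain ⟨c, hc1, hc2⟩ := hdir a b
      refine ⟨K c, ⟨c, rfl⟩, ?_⟩
      intro z hz
      exact ⟨fun U hU ha => hz U hU (hc1 U hU ha), fun U hU hb => hz U hU (hc2 U hU hb)⟩)
      ((closure (range y))ᶜ) isClosed_closure.isOpen_compl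
  have h2 : ¬ (⋂₀ (range K) ⊆ (closure (range y))ᶜ) := by
    intro hcon
    obtain ⟨_, ⟨a, rfl⟩, ha⟩ := h1 hcon
    exact ha (show y a ∈ K a from fun U _ h => h) (subset_closure ⟨a, rfl⟩)
  obtain ⟨z, hz, hz2⟩ := not_subset.1 h2
  rw [notMem_compl_iff] at hz2
  refine ⟨z, fun U hU => ⟨?_, ?_⟩⟩
  · rintro ⟨a, ha⟩
    exact hz (K a) ⟨a, rfl⟩ U hU ha
  · intro hzU
    obtain ⟨_, h3, ⟨a, rfl⟩⟩ := mem_closure_iff.1 hz2 U hU hzU
    exact ⟨a, h3⟩

variable {ι : Type u} {X : ι → Type u} [∀ i, TopologicalSpace (X i)]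

/-- partial products -/
def box (A : ∀ i, Set (X i)) (F : Finset ι) (x : ∀ i, X i) : Set (∀ i, X i) :=
  {x' | (∀ i ∈ F, x' i ∈ A i) ∧ ∀ i, i ∉ F → x' i = x i}

theorem exists_ext [DecidableEq ι] (A : ∀ i, Set (X i)) (Y : Type u) [TopologicalSpace Y]
    (hA : ∀ i, ∀ f : X i → Y, Continuous f → ∃ y : Y, closure (f '' A i) = closure ({y} : Set Y))
    (f : (∀ i, X i) → Y) (hf : Continuous f) (F : Finset ι) :
    ∃ h : (∀ i, X i) → Y, Continuous h ∧ ∀ x, ∀ U : Set Y, IsOpen U →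
      ((∃ x' ∈ box A F x, f x' ∈ U) ↔ h x ∈ U) := by
  induction F using Finset.induction_on with
  | empty =>
    refine ⟨f, hf, fun x U hU => ⟨?_, ?_⟩⟩
    · rintro ⟨x', ⟨_, h2⟩, h3⟩
      have : x' = x := funext (fun i => h2 i (by simp))
      rwa [this] at h3
    · intro h
      exact ⟨x, ⟨by simp, fun _ _ => rfl⟩, h⟩
  | insert i F hi ih =>
    obtain ⟨h, hc, hh⟩ := ih
    have hg : ∀ x : (∀ i, X i), Continuous (fun t : X i => h (Function.update x i t)) := by
      intro x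
      exact hc.comp (continuous_const.update i continuous_id)
    choose h' hh' using fun x => (hA i _ (hg x))
    have hh2 : ∀ x, ∀ U : Set Y, IsOpen U →
        ((∃ t ∈ A i, h (Function.update x i t) ∈ U) ↔ h' x ∈ U) := by
      intro x U hU
      rw [← (clo_iff _ _).1 (hh' x) U hU]
      constructor
      · rintro ⟨t, ht, htU⟩
        exact ⟨_, ⟨t, ht, rfl⟩, htU⟩
      · rintro ⟨_, ⟨t, ht, rfl⟩, htU⟩
        exact ⟨t, ht, htU⟩
    refine ⟨h', ?_, ?_⟩
    · rw [continuous_def]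
      intro U hU
      have : h' ⁻¹' U = ⋃ t ∈ A i, (fun x => h (Function.update x i t)) ⁻¹' U := by
        ext x
        rw [mem_preimage, ← hh2 x U hU]
        simp
      rw [this]
      apply isOpen_biUnion
      intro t _
      exact hU.preimage (hc.comp (continuous_id.update i continuous_const))
    · intro x U hU
      rw [← hh2 x U hU]
      constructor
      · rintro ⟨x', ⟨h1, h2⟩, h3⟩
        refine ⟨x' i, h1 i (by simp), ?_⟩
        rw [← hh _ U hU]
        refine ⟨x', ⟨fun j hj => h1 j (by simp [hj]), ?_⟩, h3⟩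
        intro j hj
        by_cases hji : j = i
        · subst hji; simp
        · rw [Function.update_of_ne hji]
          exact h2 j (by simp [hj, hji])
      · rintro ⟨t, ht, h3⟩
        rw [← hh _ U hU] at h3
        obtain ⟨x', ⟨h1, h2⟩, h3⟩ := h3
        refine ⟨x', ⟨?_, ?_⟩, h3⟩
        · intro j hj
          rcases Finset.mem_insert.1 hj with rfl | hj
          · rw [h2 j hi]; simpa using ht
          · exact h1 j hj
        · intro j hj
          rw [Finset.mem_insert, not_or] at hj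
          rw [h2 j hj.2, Function.update_of_ne hj.1]

theorem prod_point (A : ∀ i, Set (X i)) (Y : Type u) [TopologicalSpace Y] (hY : WF Y)
    (hne : ∀ i, (A i).Nonempty)
    (hA : ∀ i, ∀ f : X i → Y, Continuous f → ∃ y : Y, closure (f '' A i) = closure ({y} : Set Y))
    (f : (∀ i, X i) → Y) (hf : Continuous f) :
    ∃ z : Y, ∀ U : Set Y, IsOpen U → ((∃ x ∈ Set.univ.pi A, f x ∈ U) ↔ z ∈ U) := by
  classical
  choose a ha using hne
  have hext := fun F : Finset ι => exists_ext A Y hA f hf F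
  choose h hc hh using hext
  have hmono : ∀ F F' : Finset ι, F ⊆ F' → ∀ U : Set Y, IsOpen U → h F a ∈ U → h F' a ∈ U := by
    intro F F' hFF U hU h1
    rw [← hh F a U hU] at h1
    obtain ⟨x', ⟨h2, h3⟩, h4⟩ := h1
    rw [← hh F' a U hU]
    refine ⟨x', ⟨?_, ?_⟩, h4⟩
    · intro i hi
      by_cases hiF : i ∈ F
      · exact h2 i hiF
      · rw [h3 i hiF]; exact ha i
    · intro i hi
      exact h3 i (fun h => hi (hFF h))
  obtain ⟨z, hz⟩ := directed_sup (Y := Y) hY (fun F : Finset ι => h F a) (by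
    intro F F'
    exact ⟨F ∪ F', hmono F _ Finset.subset_union_left, hmono F' _ Finset.subset_union_right⟩)
  refine ⟨z, fun U hU => ?_⟩
  rw [← hz U hU]
  constructor
  · rintro ⟨x, hx, hxU⟩
    obtain ⟨F, u, hu, hsub⟩ := isOpen_pi_iff.1 (hU.preimage hf) x hxU
    refine ⟨F, ?_⟩
    rw [← hh F a U hU]
    refine ⟨fun i => if i ∈ F then x i else a i, ⟨?_, ?_⟩, ?_⟩
    · intro i hi
      simp only [hi, if_true]
      exact hx i (mem_univ i)
    · intro i hi
      simp only [hi, if_false]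
    · apply hsub
      intro i hi
      have hi' : i ∈ F := hi
      simp only [hi', if_true]
      exact (hu i hi').2
  · rintro ⟨F, hF⟩
    rw [← hh F a U hU] at hF
    obtain ⟨x', ⟨h2, h3⟩, h4⟩ := hF
    refine ⟨x', ?_, h4⟩
    intro i _
    by_cases hiF : i ∈ F
    · exact h2 i hiF
    · rw [h3 i hiF]; exact ha i

theorem main :
    ∀ (ι : Type u) (X : ι → Type u) [∀ i, TopologicalSpace (X i)],
      (∀ i, T0Space (X i) ∧
        ∀ A : Set (X i), IsIrreducible A → IsClosed A →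
          ∀ (Y : Type u) [TopologicalSpace Y],
            (T0Space Y ∧
              ∀ 𝒦 : Set (Set Y), 𝒦.Nonempty →
                (∀ K ∈ 𝒦, IsCompact K ∧
                  ∀ y : Y, (∀ V : Set Y, IsOpen V → K ⊆ V → y ∈ V) → y ∈ K) →
                (∀ K₁ ∈ 𝒦, ∀ K₂ ∈ 𝒦, ∃ K₃ ∈ 𝒦, K₃ ⊆ K₁ ∩ K₂) →
                ∀ U : Set Y, IsOpen U → ⋂₀ 𝒦 ⊆ U → ∃ K ∈ 𝒦, K ⊆ U) →
            ∀ f : X i → Y, Continuous f →
              ∃! y : Y, y ∈ closure (f '' A) ∧ closure (f '' A) = closure {y}) →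
      (T0Space ((i : ι) → X i) ∧
        ∀ A : Set ((i : ι) → X i), IsIrreducible A → IsClosed A →
          ∀ (Y : Type u) [TopologicalSpace Y],
            (T0Space Y ∧
              ∀ 𝒦 : Set (Set Y), 𝒦.Nonempty →
                (∀ K ∈ 𝒦, IsCompact K ∧
                  ∀ y : Y, (∀ V : Set Y, IsOpen V → K ⊆ V → y ∈ V) → y ∈ K) →
                (∀ K₁ ∈ 𝒦, ∀ K₂ ∈ 𝒦, ∃ K₃ ∈ 𝒦, K₃ ⊆ K₁ ∩ K₂) →
                ∀ U : Set Y, IsOpen U → ⋂₀ 𝒦 ⊆ U → ∃ K ∈ 𝒦, K ⊆ U) →
            ∀ f : ((i : ι) → X i) → Y, Continuous f →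
              ∃! y : Y, y ∈ closure (f '' A) ∧ closure (f '' A) = closure {y}) := by
  classical
  intro ι X _ hX
  have hT0 : ∀ i, T0Space (X i) := fun i => (hX i).1
  refine ⟨inferInstance, ?_⟩
  intro A hAirr hAcl Y _ hY f hf
  let B : ∀ i, Set (X i) := fun i => closure ((fun x : (∀ i, X i) => x i) '' A)
  have hBirr : ∀ i, IsIrreducible (B i) := fun i =>
    (hAirr.image _ (continuous_apply i).continuousOn).closure
  obtain ⟨z, hz⟩ := prod_point B Y hY (fun i => (hBirr i).nonempty) (by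
    intro i g hg
    obtain ⟨y, hy, _⟩ := (hX i).2 (B i) (hBirr i) isClosed_closure Y hY g hg
    exact ⟨y, hy.2⟩) f hf
  have hz' : closure (f '' A) = closure ({z} : Set Y) := by
    rw [clo_iff]
    intro U hU
    rw [← hz U hU]
    constructor
    · rintro ⟨_, ⟨x, hx, rfl⟩, hxU⟩
      exact ⟨x, fun i _ => subset_closure ⟨x, hx, rfl⟩, hxU⟩
    · rintro ⟨x, hx, hxU⟩
      obtain ⟨F, u, hu, hsub⟩ := isOpen_pi_iff.1 (hU.preimage hf) x hxU
      have key : ∀ F' : Finset ι, F' ⊆ F → (A ∩ ⋂ i ∈ F', (fun x : (∀ i, X i) => x i) ⁻¹' (u i)).Nonempty := by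
        intro F'
        induction F' using Finset.induction_on with
        | empty => intro _; simpa using hAirr.nonempty
        | insert i F' hi ih =>
          intro hsub'
          have h1 := ih (fun j hj => hsub' (Finset.mem_insert_of_mem hj))
          have hiF : i ∈ F := hsub' (Finset.mem_insert_self i F')
          have hopen : IsOpen (⋂ j ∈ F', (fun x : (∀ i, X i) => x j) ⁻¹' (u j)) := by
            apply isOpen_biInter_finset
            intro j hj
            exact (hu j (hsub' (Finset.mem_insert_of_mem hj))).1.preimage (continuous_apply j)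
          have hopen2 : IsOpen ((fun x : (∀ i, X i) => x i) ⁻¹' (u i)) :=
            (hu i hiF).1.preimage (continuous_apply i)
          have h2 : (A ∩ (fun x : (∀ i, X i) => x i) ⁻¹' (u i)).Nonempty := by
            obtain ⟨_, h3, ⟨a, ha, rfl⟩⟩ := mem_closure_iff.1 (hx i (mem_univ i)) (u i)
              (hu i hiF).1 (hu i hiF).2
            exact ⟨a, ha, h3⟩
          obtain ⟨a, ha, ha1, ha2⟩ := hAirr.isPreirreducible _ _ hopen2 hopen h2 h1
          refine ⟨a, ha, ?_⟩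
          rw [Finset.set_biInter_insert]
          exact ⟨ha1, ha2⟩
      obtain ⟨a, ha, ha2⟩ := key F subset_rfl
      refine ⟨_, ⟨a, ha, rfl⟩, ?_⟩
      apply hsub
      intro i hi
      simp only [mem_iInter] at ha2
      exact ha2 i hi
  refine ⟨z, ⟨?_, hz'⟩, ?_⟩
  · rw [hz']; exact subset_closure (mem_singleton z)
  intro y hy
  have := hY.1
  have h3 : closure ({y} : Set Y) = closure {z} := by rw [← hz', hy.2]
  exact (inseparable_iff_closure_eq.2 h3).eq

end Pool.Agent.D767
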